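import Pool.Agent.U41.PH.Stm0

/-! Project PH, package PT -/

set_option autoImplicit false

namespace Pool.Agent.U41.PH

open MvPolynomial

theorem PT_ok : S_PT := by
  intro K σ _ _ J z hz
  rw [Ideal.radical_eq_jacobson, Ideal.jacobson, Submodule.mem_sInf] at hz
  push Not at hz
  obtain ⟨Q, ⟨hJQ, hQ⟩, hzQ⟩ := hz
  letI : Field (MvPolynomial σ K ⧸ Q) := Ideal.Quotient.field Q
  haveI : Algebra.FiniteType K (MvPolynomial σ K ⧸ Q) :=
    Algebra.FiniteType.of_surjective (Ideal.Quotient.mkₐ K Q) (Ideal.Quotient.mkₐ_surjective K Q)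
  haveI : Module.Finite K (MvPolynomial σ K ⧸ Q) :=
    finite_of_finite_type_of_isJacobsonRing K (MvPolynomial σ K ⧸ Q)
  have key : ∀ P : MvPolynomial σ K,
      aeval (fun j => Ideal.Quotient.mkₐ K Q (X j)) P = Ideal.Quotient.mkₐ K Q P := by
    intro P
    have := MvPolynomial.aeval_unique (Ideal.Quotient.mkₐ K Q)
    conv_rhs => rw [this]
    rfl
  refine ⟨MvPolynomial σ K ⧸ Q, inferInstance, inferInstance, Algebra.IsAlgebraic.of_finite K _,
    fun j => Ideal.Quotient.mkₐ K Q (X j), ?_, ?_⟩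
  · intro P hP
    rw [key]
    exact Ideal.Quotient.eq_zero_iff_mem.2 (hJQ hP)
  · rw [key]
    intro h
    exact hzQ (Ideal.Quotient.eq_zero_iff_mem.1 h)

end Pool.Agent.U41.PH
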